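import Pool.Agent.P8H28.AD.Defs

/-! Project AD of helper28, package POS. -/

set_option autoImplicit false

namespace Pool.Agent.P8H59.AD

open Pool.Agent.W528.ZC Pool.Agent.P8H28.QF Pool.Agent.P8H28.AD

theorem sgn_mul (w p : ℤ) : Complex.I ^ (w - 2 * p) = Complex.I ^ w * (-1 : ℂ) ^ p := by
  rw [zpow_sub₀ Complex.I_ne_zero, zpow_mul]
  have h : Complex.I ^ (2 : ℤ) = -1 := by
    have := Complex.I_sq
    exact_mod_cast this
  rw [h]
  have h2 : ((-1 : ℂ) ^ p) * ((-1 : ℂ) ^ p) = 1 := by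
    rw [← mul_zpow]; simp
  have h3 : ((-1 : ℂ) ^ p) ≠ 0 := fun h => by rw [h, zero_mul] at h2; exact zero_ne_one h2
  rw [div_eq_iff h3, mul_assoc, h2, mul_one]

theorem sgn_sq (p : ℤ) : ((-1 : ℂ) ^ p) * ((-1 : ℂ) ^ p) = 1 := by
  rw [← mul_zpow]; simp

variable {ι : Type} [Fintype ι] [DecidableEq ι]

theorem weil_sq {B : Matrix ι ι ℂ} (hB : IsUnit B.det) (p : ι → ℤ) : weil B p * weil B p = 1 := by
  unfold weil
  have h1 : B⁻¹ * B = 1 := Matrix.nonsing_inv_mul B hB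
  have h2 : B * B⁻¹ = 1 := Matrix.mul_nonsing_inv B hB
  calc B * Matrix.diagonal (fun a => ((-1 : ℂ) ^ p a)) * B⁻¹ *
        (B * Matrix.diagonal (fun a => ((-1 : ℂ) ^ p a)) * B⁻¹)
      = B * Matrix.diagonal (fun a => ((-1 : ℂ) ^ p a)) * (B⁻¹ * B) *
        Matrix.diagonal (fun a => ((-1 : ℂ) ^ p a)) * B⁻¹ := by simp only [Matrix.mul_assoc]
    _ = B * (Matrix.diagonal (fun a => ((-1 : ℂ) ^ p a)) *
        Matrix.diagonal (fun a => ((-1 : ℂ) ^ p a))) * B⁻¹ := by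
        rw [h1, Matrix.mul_one, Matrix.mul_assoc B]
    _ = 1 := by
        rw [Matrix.diagonal_mul_diagonal]
        simp only [sgn_sq]
        rw [Matrix.diagonal_one, Matrix.mul_one, h2]

theorem weil_inv {B : Matrix ι ι ℂ} (hB : IsUnit B.det) (p : ι → ℤ) : (weil B p)⁻¹ = weil B p :=
  Matrix.inv_eq_left_inv (weil_sq hB p)

theorem pos : S_POS := by
  intro ι _ _ w ψ B p hB hD z hz htr
  have h1 : B⁻¹ * B = 1 := Matrix.nonsing_inv_mul B hB
  have h2 : B * B⁻¹ = 1 := Matrix.mul_nonsing_inv B hB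
  set S : Matrix ι ι ℂ := Matrix.diagonal (fun a => ((-1 : ℂ) ^ p a)) with hS
  set Zr : Matrix ι ι ℂ := mapQ ℂ z with hZr
  set P : Matrix ι ι ℂ := mapQ ℂ ψ with hP
  set Z : Matrix ι ι ℂ := B⁻¹ * Zr * B with hZ
  have hBZ : Zr * B = B * Z := by
    rw [hZ, ← Matrix.mul_assoc, ← Matrix.mul_assoc, h2, Matrix.one_mul]
  have hcr : cj Zr = Zr := by
    ext a b
    rw [hZr]
    simp [cj, mapQ]
  have hmul : ∀ M N : Matrix ι ι ℂ, cj (M * N) = cj M * cj N := fun M N => by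
    unfold cj
    exact Matrix.map_mul
  have hc : Zr * cj B = cj B * cj Z := by
    have := congrArg cj hBZ
    rwa [hmul, hmul, hcr] at this
  have hzz : Zr.transpose * P = - (P * Zr) := by
    have h3 := congrArg (mapQ ℂ) hz
    have h4 : mapQ ℂ (z.transpose * ψ + ψ * z) = Zr.transpose * P + P * Zr := by
      ext a b
      simp [mapQ, hZr, hP, Matrix.mul_apply]
    have h5 : mapQ ℂ (0 : Matrix ι ι ℚ) = 0 := by
      ext a b
      simp [mapQ]
    rw [h4, h5] at h3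
    exact eq_neg_of_add_eq_zero_left h3
  have key : Matrix.diagonal (fun a => Complex.I ^ (w - 2 * p a)) * cj Z =
      - (Z.transpose * Matrix.diagonal (fun a => Complex.I ^ (w - 2 * p a))) := by
    calc Matrix.diagonal (fun a => Complex.I ^ (w - 2 * p a)) * cj Z
        = B.transpose * P * (cj B * cj Z) := by rw [← hD, Matrix.mul_assoc]
      _ = B.transpose * (P * Zr) * cj B := by rw [← hc]; simp only [Matrix.mul_assoc]
      _ = - ((Zr * B).transpose * P * cj B) := by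
          rw [← neg_neg (P * Zr), ← hzz, Matrix.transpose_mul, Matrix.mul_neg, Matrix.neg_mul]
          simp only [Matrix.mul_assoc]
      _ = - (Z.transpose * (B.transpose * P * cj B)) := by
          rw [hBZ, Matrix.transpose_mul]; simp only [Matrix.mul_assoc]
      _ = _ := by rw [hD]
  have hI : (Complex.I : ℂ) ^ w ≠ 0 := zpow_ne_zero _ Complex.I_ne_zero
  have key2 : ∀ a b, Z b a * ((-1 : ℂ) ^ p b) = - (((-1 : ℂ) ^ p a) * (starRingEnd ℂ) (Z a b)) := by
    intro a b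
    have h3 := congrFun (congrFun key a) b
    rw [Matrix.diagonal_mul, Matrix.neg_apply, Matrix.mul_diagonal, Matrix.transpose_apply, sgn_mul,
      sgn_mul] at h3
    have h4 : Complex.I ^ w * (Z b a * ((-1 : ℂ) ^ p b)) =
        Complex.I ^ w * (- (((-1 : ℂ) ^ p a) * (starRingEnd ℂ) (Z a b))) := by
      have h5 : cj Z a b = (starRingEnd ℂ) (Z a b) := rfl
      rw [h5] at h3
      linear_combination h3
    exact mul_left_cancel₀ hI h4
  have htr2 : (Zr * ((weil B p)⁻¹ * Zr * weil B p)).trace = (Z * S * (Z * S)).trace := by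
    rw [weil_inv hB]
    have h3 : Zr = B * Z * B⁻¹ := by rw [← hBZ, Matrix.mul_assoc, h2, Matrix.mul_one]
    have h4 : Zr * (weil B p * Zr * weil B p) = B * (Z * S * (Z * S) * B⁻¹) := by
      unfold weil
      rw [h3, ← hS]
      calc B * Z * B⁻¹ * (B * S * B⁻¹ * (B * Z * B⁻¹) * (B * S * B⁻¹))
          = B * Z * (B⁻¹ * B) * S * (B⁻¹ * B) * Z * (B⁻¹ * B) * S * B⁻¹ := by
            simp only [Matrix.mul_assoc]
        _ = _ := by
            rw [h1]
            simp only [Matrix.mul_one, Matrix.mul_assoc]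
    rw [h4, Matrix.trace_mul_comm, Matrix.mul_assoc, h1, Matrix.mul_one]
  have hsum : (Z * S * (Z * S)).trace = - ((∑ a, ∑ b, ‖Z a b‖ ^ 2 : ℝ) : ℂ) := by
    rw [Matrix.trace]
    push_cast
    rw [← Finset.sum_neg_distrib]
    refine Finset.sum_congr rfl fun a _ => ?_
    rw [Matrix.diag_apply, Matrix.mul_apply, ← Finset.sum_neg_distrib]
    refine Finset.sum_congr rfl fun b _ => ?_
    rw [hS, Matrix.mul_diagonal, Matrix.mul_diagonal]
    have h3 := key2 b a
    have h4 := key2 a b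
    have h5 : Z a b * (starRingEnd ℂ) (Z a b) = (‖Z a b‖ : ℂ) ^ 2 := Complex.mul_conj' _
    have h6 := sgn_sq (p a)
    calc Z a b * (-1 : ℂ) ^ p b * (Z b a * (-1 : ℂ) ^ p a)
        = Z a b * (-1 : ℂ) ^ p a * (Z b a * (-1 : ℂ) ^ p b) := by ring
      _ = - (Z a b * (starRingEnd ℂ) (Z a b) * (((-1 : ℂ) ^ p a) * ((-1 : ℂ) ^ p a))) := by
          rw [h4]; ring
      _ = _ := by rw [h6, h5, mul_one]
  rw [htr2, hsum, neg_eq_zero] at htr
  have htr3 : (∑ a, ∑ b, ‖Z a b‖ ^ 2 : ℝ) = 0 := by exact_mod_cast htr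
  have hZ0 : Z = 0 := by
    ext a b
    have h3 := (Finset.sum_eq_zero_iff_of_nonneg (fun a _ => Finset.sum_nonneg fun b _ =>
      sq_nonneg ‖Z a b‖)).1 htr3 a (Finset.mem_univ a)
    have h4 := (Finset.sum_eq_zero_iff_of_nonneg (fun b _ => sq_nonneg ‖Z a b‖)).1 h3 b
      (Finset.mem_univ b)
    have h5 : ‖Z a b‖ = 0 := by
      exact pow_eq_zero_iff (two_ne_zero) |>.1 h4
    exact norm_eq_zero.1 h5
  have hZr0 : Zr = 0 := by
    have h3 : Zr = B * Z * B⁻¹ := by rw [← hBZ, Matrix.mul_assoc, h2, Matrix.mul_one]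
    rw [h3, hZ0, Matrix.mul_zero, Matrix.zero_mul]
  ext a b
  have h3 := congrFun (congrFun hZr0 a) b
  rw [hZr] at h3
  have h4 : ((z a b : ℚ) : ℂ) = 0 := by
    simpa [mapQ] using h3
  exact_mod_cast h4

end Pool.Agent.P8H59.AD
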